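import Pool.Agent.Helper95.HS.GoalsA

/-! # Packet VENV: a smooth substitute for the envelope -/

open Complex Metric Set Filter Topology MeasureTheory
open scoped ContDiff ComplexConjugate ComplexOrder Manifold Matrix

namespace Pool.Agent.Helper94.HS

open Pool.Agent.Helper95.Lin Pool.Agent.Helper16.Abund Pool.Agent.Helper10.SP
  Pool.Agent.Helper57.HS Pool.Agent.Helper95.HS

universe u v

/-! ## Linearity of the Levi matrix -/

theorem cd_lin {n : ℕ} (l : Fin n) {f g : Cn n → ℂ} {x : Cn n} (hf : DifferentiableAt ℝ f x)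
    (hg : DifferentiableAt ℝ g x) (a c : ℂ) :
    cd l (fun y => a * f y + c * g y) x = a * cd l f x + c * cd l g x := by
  have h : fderiv ℝ (fun y => a * f y + c * g y) x = a • fderiv ℝ f x + c • fderiv ℝ g x := by
    rw [fderiv_fun_add (hf.const_mul a) (hg.const_mul c), fderiv_const_mul hg,
      fderiv_const_mul hf]
  unfold cd
  rw [h]
  simp only [_root_.add_apply, _root_.smul_apply, smul_eq_mul]
  ring

theorem cdb_lin {n : ℕ} (l : Fin n) {f g : Cn n → ℂ} {x : Cn n} (hf : DifferentiableAt ℝ f x)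
    (hg : DifferentiableAt ℝ g x) (a c : ℂ) :
    cdb l (fun y => a * f y + c * g y) x = a * cdb l f x + c * cdb l g x := by
  have h : fderiv ℝ (fun y => a * f y + c * g y) x = a • fderiv ℝ f x + c • fderiv ℝ g x := by
    rw [fderiv_fun_add (hf.const_mul a) (hg.const_mul c), fderiv_const_mul hg,
      fderiv_const_mul hf]
  unfold cdb
  rw [h]
  simp only [_root_.add_apply, _root_.smul_apply, smul_eq_mul]
  ring

theorem cd_congr {n : ℕ} (l : Fin n) {f g : Cn n → ℂ} {x : Cn n} (h : f =ᶠ[𝓝 x] g) :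
    cd l f x = cd l g x := by
  unfold cd
  rw [h.fderiv_eq]

theorem LM_lin {n : ℕ} (hWIRT : S_WIRT) {T : Set (Cn n)} (hT : IsOpen T) {f g : Cn n → ℝ}
    (hf : ContDiffOn ℝ ∞ f T) (hg : ContDiffOn ℝ ∞ g T) (a c : ℝ) {x : Cn n}
    (hx : x ∈ T) : LM (fun y => a * f y + c * g y) x = (a : ℂ) • LM f x + (c : ℂ) • LM g x := by
  have hf1 : ContDiffOn ℝ ∞ (fun y => (f y : ℂ)) T := Complex.ofRealCLM.contDiff.comp_contDiffOn hf
  have hg1 : ContDiffOn ℝ ∞ (fun y => (g y : ℂ)) T := Complex.ofRealCLM.contDiff.comp_contDiffOn hg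
  have hd : ∀ {u : Cn n → ℂ}, ContDiffOn ℝ ∞ u T → ∀ y ∈ T, DifferentiableAt ℝ u y := by
    intro u hu y hy
    exact (hu.differentiableOn (by simp)).differentiableAt (hT.mem_nhds hy)
  ext j k
  simp only [LM, Matrix.of_apply, Matrix.add_apply, Matrix.smul_apply, smul_eq_mul]
  have hf' := (hWIRT T hT _ _ hf1 hg1).1 k
  have hg' := (hWIRT T hT _ _ hg1 hf1).1 k
  have e : (fun y => ((a * f y + c * g y : ℝ) : ℂ)) =
      fun y => (a : ℂ) * (f y : ℂ) + (c : ℂ) * (g y : ℂ) := by
    funext y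
    push_cast
    rfl
  rw [e, ← cd_lin j (hd hf'.2 x hx) (hd hg'.2 x hx)]
  apply cd_congr
  filter_upwards [hT.mem_nhds hx] with y hy
  exact cdb_lin k (hd hf1 y hy) (hd hg1 y hy) _ _

theorem LM_const {n : ℕ} (c : ℝ) (x : Cn n) : LM (fun _ : Cn n => c) x = 0 := by
  have h1 : ∀ k, cdb k (fun _ : Cn n => (c : ℂ)) = fun _ => 0 := by
    intro k
    ext y
    simp [cdb]
  ext j k
  simp only [LM, Matrix.of_apply, h1, Matrix.zero_apply]
  simp [cd]

theorem invF_lin {n : ℕ} {T : Set (Cn n)} {G : Type u} {R : G → Cn n → Cn n → Prop}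
    {f g : Cn n → ℝ} (hf : InvF T R f) (hg : InvF T R g) (a c : ℝ) :
    InvF T R (fun y => a * f y + c * g y) := by
  refine ⟨(contDiffOn_const.mul hf.1).add (contDiffOn_const.mul hg.1), fun γ x y h => ?_⟩
  simp only [hf.2 γ x y h, hg.2 γ x y h]

theorem invF_const {n : ℕ} (T : Set (Cn n)) {G : Type u} (R : G → Cn n → Cn n → Prop) (c : ℝ) :
    InvF T R (fun _ => c) := ⟨contDiffOn_const, fun _ _ _ _ => rfl⟩

theorem det_smul_re {n : ℕ} (c : ℝ) (A : Matrix (Fin n) (Fin n) ℂ) :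
    ((c : ℂ) • A).det.re = c ^ n * A.det.re := by
  rw [Matrix.det_smul, Fintype.card_fin]
  have : ((c : ℂ) ^ n) = ((c ^ n : ℝ) : ℂ) := by push_cast; rfl
  rw [this, Complex.re_ofReal_mul]

/-- The packet VENV. -/
theorem venv (hW : S_WIRT) (h1 : S_MAXF.{u}) (h2 : S_TRC) (h3 : S_CMP.{u}) (h4 : S_KETP.{u})
    (h5 : S_AYX.{u}) : S_VENV.{u} := by
  intro n T G _ R H a χ φ hchi ha hφ
  have hket := hchi.ket
  have het := hket.et
  have hT := het.isOpen
  -- logarithm comparison
  have hdet : ∀ {A : Matrix (Fin n) (Fin n) ℂ}, A.PosDef → 0 < A.det.re := fun {A} hA =>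
    ((h2 A A hA).1 hA.isHermitian).2.2
  -- the metric `pert χ φ`
  have hQ : KEt T R (pert χ φ) := ((h4 T R het).1 χ φ hchi.chf hchi.inv hφ.inv).2.2 hφ.pos
  obtain ⟨δ, hδ, hδQ⟩ := h3 T R H (pert χ φ) hket hQ
  -- normalization of `φ`
  obtain ⟨x₀, hx₀, hmax, -⟩ := h1 T R het φ hφ.inv
  set φ' : Cn n → ℝ := fun y => 1 * φ y + 1 * (fun _ => - φ x₀) y with hφ'
  have hφ'i : InvF T R φ' := invF_lin hφ.inv (invF_const T R (- φ x₀)) 1 1
  have hφ'L : ∀ x ∈ T, LM φ' x = LM φ x := by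
    intro x hx
    rw [hφ', LM_lin hW hT hφ.inv.1 contDiffOn_const 1 1 hx, LM_const]
    simp
  have hφ'le : ∀ x ∈ T, φ' x ≤ 0 := by
    intro x hx
    have := hmax x hx
    simp only [hφ']
    linarith
  obtain ⟨x₁, hx₁, hmax1, -⟩ := h1 T R het (fun y => (-1) * φ' y + 0 * φ' y)
    (invF_lin hφ'i hφ'i (-1) 0)
  set C₀ : ℝ := (-1) * φ' x₁ + 0 * φ' x₁ with hC₀
  have hC₀p : 0 ≤ C₀ := by
    have := hφ'le x₁ hx₁
    rw [hC₀]; linarith
  have hC₀le : ∀ x ∈ T, - φ' x ≤ C₀ := by
    intro x hx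
    have := hmax1 x hx
    linarith
  -- the parameters
  set t : ℝ := 1 / (2 * (C₀ + 1)) with ht
  have ht0 : 0 < t := by rw [ht]; positivity
  have ht1 : t ≤ 1 / 2 := by
    rw [ht]
    apply one_div_le_one_div_of_le (by norm_num)
    linarith
  have htC : t * C₀ ≤ 1 / 2 := by
    rw [ht, one_div_mul_eq_div, div_le_div_iff₀ (by positivity) (by norm_num)]
    nlinarith
  obtain ⟨β, hβ0, hβ1, hβ2⟩ : ∃ β : ℝ, 0 < β ∧ (n : ℝ) * Real.log a ≤ β ∧
      - (n : ℝ) * Real.log (t * δ) ≤ β / 2 := by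
    refine ⟨|(n : ℝ) * Real.log a| + 2 * |(n : ℝ) * Real.log (t * δ)| + 1, by positivity, ?_, ?_⟩
    · have := le_abs_self ((n : ℝ) * Real.log a)
      have := abs_nonneg ((n : ℝ) * Real.log (t * δ))
      linarith
    · have := neg_abs_le ((n : ℝ) * Real.log (t * δ))
      have := abs_nonneg ((n : ℝ) * Real.log a)
      linarith
  obtain ⟨v, hv, hveq⟩ := h5 T R H a χ φ hchi hφ (fun _ => 0) (invF_const T R 0) β hβ0
  refine ⟨v, hv, ?_, ?_⟩
  · -- the upper bound
    obtain ⟨x, hx, hxm, hpsd⟩ := h1 T R het v hv.inv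
    intro y hy
    refine (hxm y hy).trans ?_
    have hP := hv.pos x hx
    have hle : (((a : ℝ) : ℂ) • H x - pert χ v x).PosSemidef := by
      have e : ((a : ℝ) : ℂ) • H x - pert χ v x = (((a : ℝ) : ℂ) • H x - χ x) + - LM v x := by
        unfold pert
        abel
      rw [e]
      exact (hchi.le x hx).add hpsd
    have hd := (h2 (pert χ v x) (((a : ℝ) : ℂ) • H x) hP).2.2.2.1 hle
    rw [det_smul_re] at hd
    have hl : ld (pert χ v) x ≤ n * Real.log a + ld H x := by
      unfold ld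
      rw [← Real.log_pow, ← Real.log_mul (by positivity) (hdet (hket.posDef x hx)).ne']
      exact Real.log_le_log (hdet hP) hd
    have he := hveq x hx
    have : β * v x ≤ β * 1 := by
      linarith
    exact le_of_mul_le_mul_left this hβ0
  · -- the maximality
    intro ψ hψ hψle
    set u : Cn n → ℝ := fun y => (1 - t) * ψ y + t * φ' y with hu
    have hui : InvF T R u := invF_lin hψ.inv hφ'i _ _
    obtain ⟨x, hx, hxm, hpsd⟩ := h1 T R het (fun y => 1 * u y + (-1) * v y)
      (invF_lin hui hv.inv 1 (-1))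
    have hP := hv.pos x hx
    have hH := hket.posDef x hx
    rw [LM_lin hW hT hui.1 hv.inv.1 1 (-1) hx, hu,
      LM_lin hW hT hψ.inv.1 hφ'i.1 (1 - t) t hx, hφ'L x hx] at hpsd
    have htδ : 0 < t * δ := by positivity
    have hQ' : (((t * δ : ℝ) : ℂ) • H x).PosDef := by
      have := hH.smul (show (0 : ℝ) < t * δ from htδ)
      have e : ((t * δ : ℝ) : ℂ) • H x = (t * δ : ℝ) • H x := by
        ext i j
        simp [Matrix.smul_apply]
      rw [e]
      exact this
    have hle : (pert χ v x - ((t * δ : ℝ) : ℂ) • H x).PosSemidef := by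
      have a1 : (((1 - t : ℝ) : ℂ) • pert χ ψ x).PosSemidef := by
        have := (hψ.pos x hx).posSemidef.smul (show (0 : ℝ) ≤ 1 - t by linarith)
        have e : ((1 - t : ℝ) : ℂ) • pert χ ψ x = (1 - t : ℝ) • pert χ ψ x := by
          ext i j
          simp [Matrix.smul_apply]
        rw [e]
        exact this
      have a2 : (((t : ℝ) : ℂ) • (pert χ φ x - ((δ : ℝ) : ℂ) • H x)).PosSemidef := by
        have := (hδQ x hx).smul (show (0 : ℝ) ≤ t from ht0.le)
        have e : ((t : ℝ) : ℂ) • (pert χ φ x - ((δ : ℝ) : ℂ) • H x) =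
            (t : ℝ) • (pert χ φ x - ((δ : ℝ) : ℂ) • H x) := by
          ext i j
          simp [Matrix.smul_apply]
        rw [e]
        exact this
      have := (hpsd.add a1).add a2
      have e : pert χ v x - ((t * δ : ℝ) : ℂ) • H x =
          -(((1 : ℝ) : ℂ) • (((1 - t : ℝ) : ℂ) • LM ψ x + ((t : ℝ) : ℂ) • LM φ x) +
            ((-1 : ℝ) : ℂ) • LM v x) + ((1 - t : ℝ) : ℂ) • pert χ ψ x +
            ((t : ℝ) : ℂ) • (pert χ φ x - ((δ : ℝ) : ℂ) • H x) := by
        unfold pert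
        ext i j
        simp only [Matrix.sub_apply, Matrix.add_apply, Matrix.smul_apply, Matrix.neg_apply,
          smul_eq_mul]
        push_cast
        ring
      rw [e]
      exact this
    have hd := (h2 (((t * δ : ℝ) : ℂ) • H x) (pert χ v x) hQ').2.2.2.1 hle
    rw [det_smul_re] at hd
    have hl : n * Real.log (t * δ) + ld H x ≤ ld (pert χ v) x := by
      unfold ld
      rw [← Real.log_pow, ← Real.log_mul (by positivity) (hdet hH).ne']
      exact Real.log_le_log (mul_pos (by positivity) (hdet hH)) hd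
    have he := hveq x hx
    have hvx : -(1 / 2) ≤ v x := by
      have : β * (-(1 / 2)) ≤ β * v x := by
          linarith
      exact le_of_mul_le_mul_left this hβ0
    have hux : u x ≤ 0 := by
      have e1 := hψle x hx
      have e2 := hφ'le x hx
      have e3 : (1 - t) * ψ x ≤ 0 := mul_nonpos_of_nonneg_of_nonpos (by linarith) e1
      have e4 : t * φ' x ≤ 0 := mul_nonpos_of_nonneg_of_nonpos ht0.le e2
      simp only [hu]
      linarith
    intro y hy
    have hy1 := hxm y hy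
    have hy2 := hC₀le y hy
    have hy3 := hψle y hy
    have e5 : t * (ψ y - φ' y) ≤ t * C₀ := mul_le_mul_of_nonneg_left (by linarith) ht0.le
    have e6 : ψ y = u y + t * (ψ y - φ' y) := by
      simp only [hu]
      ring
    simp only [one_mul, neg_mul] at hy1
    linarith

end Pool.Agent.Helper94.HS
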