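import Pool.Agent.Helper36.HS.GoalsL
import Pool.Agent.Helper80.SP.CACC

/-! # Packet CACF: the Caccioppoli inequality with a term of order zero -/

open Complex Metric Set Filter Topology MeasureTheory
open scoped ContDiff ComplexConjugate ComplexOrder

namespace Pool.Agent.Helper94.CACF

open Pool.Agent.Helper95.Lin Pool.Agent.Helper10.SP Pool.Agent.Helper36.HS
open Pool.Agent.Helper80.SP (smooth_ext integral_cd cd_sub exists_lower pointwise)

/-- The packet CACF. -/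
theorem cacf (hWIRT : S_WIRT) : S_CACF := by
  intro n T A hT hA hP χ hχ
  set K := tsupport χ with hKdef
  have hKc : IsCompact K := hχ.2.1
  have hKT : K ⊆ T := hχ.2.2
  have hAK : ∀ j k, ContinuousOn (fun x => A x j k) K := fun j k => (hA j k).continuousOn.mono hKT
  obtain ⟨lam, hlam, hlow⟩ := exists_lower hKc hAK fun x hx => hP x (hKT hx)
  -- the function χ, complex valued
  have hcs : ContDiff ℝ ∞ (fun x => (χ x : ℂ)) := Complex.ofRealCLM.contDiff.comp hχ.1
  have hcd : ∀ j, ContDiffOn ℝ ∞ (cd j fun x => (χ x : ℂ)) T := fun j =>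
    ((hWIRT T hT _ _ hcs.contDiffOn hcs.contDiffOn).1 j).1
  obtain ⟨M, hM0, hMA, hMd, hMs⟩ : ∃ M : ℝ, 0 ≤ M ∧ (∀ x ∈ K, ∀ j k, ‖A x j k‖ ≤ M) ∧
      (∀ x ∈ K, ∀ j, ‖cd j (fun x => (χ x : ℂ)) x‖ ≤ M) ∧ ∀ x ∈ K, |χ x| ≤ M := by
    have h1 : ∀ j k, ∃ C : ℝ, ∀ x ∈ K, ‖A x j k‖ ≤ C := fun j k =>
      hKc.exists_bound_of_continuousOn (hAK j k)
    have h2 : ∀ j, ∃ C : ℝ, ∀ x ∈ K, ‖cd j (fun x => (χ x : ℂ)) x‖ ≤ C := fun j =>
      hKc.exists_bound_of_continuousOn ((hcd j).continuousOn.mono hKT)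
    obtain ⟨C3, hC3⟩ := hKc.exists_bound_of_continuousOn hχ.1.continuous.continuousOn
    choose C1 hC1 using h1
    choose C2 hC2 using h2
    refine ⟨(∑ j, ∑ k, |C1 j k|) + (∑ j, |C2 j|) + |C3|, by positivity, ?_, ?_, ?_⟩
    · intro x hx j k
      have h3 : |C1 j k| ≤ ∑ k, |C1 j k| :=
        Finset.single_le_sum (f := fun k => |C1 j k|) (fun _ _ => abs_nonneg _)
          (Finset.mem_univ k)
      have h4 : ∑ k, |C1 j k| ≤ ∑ j, ∑ k, |C1 j k| :=
        Finset.single_le_sum (f := fun j => ∑ k, |C1 j k|)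
          (fun _ _ => Finset.sum_nonneg fun _ _ => abs_nonneg _) (Finset.mem_univ j)
      have h5 : 0 ≤ ∑ j, |C2 j| := Finset.sum_nonneg fun _ _ => abs_nonneg _
      have h6 := abs_nonneg C3
      linarith [hC1 j k x hx, le_abs_self (C1 j k)]
    · intro x hx j
      have h3 : |C2 j| ≤ ∑ j, |C2 j| :=
        Finset.single_le_sum (f := fun j => |C2 j|) (fun _ _ => abs_nonneg _)
          (Finset.mem_univ j)
      have h4 : 0 ≤ ∑ j, ∑ k, |C1 j k| :=
        Finset.sum_nonneg fun _ _ => Finset.sum_nonneg fun _ _ => abs_nonneg _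
      have h6 := abs_nonneg C3
      linarith [hC2 j x hx, le_abs_self (C2 j)]
    · intro x hx
      have h4 : 0 ≤ ∑ j, ∑ k, |C1 j k| :=
        Finset.sum_nonneg fun _ _ => Finset.sum_nonneg fun _ _ => abs_nonneg _
      have h5 : 0 ≤ ∑ j, |C2 j| := Finset.sum_nonneg fun _ _ => abs_nonneg _
      have h6 := hC3 x hx
      rw [Real.norm_eq_abs] at h6
      linarith [le_abs_self C3]
  set B1 := 4 / lam * (n * (n * M ^ 2) ^ 2) + n * (M ^ 2) ^ 2 with hB1
  set B2 := 1 + 4 / lam * M ^ 2 with hB2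
  have hB1' : 0 ≤ B1 := by positivity
  have hB2' : 0 ≤ B2 := by positivity
  refine ⟨2 / lam * (B1 + B2 + M ^ 2), fun u F₀ F hu hF₀ hF heq => ?_⟩
  have hFj : ∀ j, ContDiffOn ℝ ∞ (fun y => F y j) T := fun j => contDiffOn_pi.1 hF j
  have hcdb : ∀ k, ContDiffOn ℝ ∞ (cdb k u) T := fun k => ((hWIRT T hT u u hu hu).1 k).2
  have hAu : ∀ j, ContDiffOn ℝ ∞ (fun y => ∑ k, A y k j * cdb k u y) T := fun j =>
    ContDiffOn.sum fun k _ => (hA k j).mul (hcdb k)
  set G : Fin n → Cn n → ℂ := fun j y => (∑ k, A y k j * cdb k u y) - F y j with hG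
  have hGs : ∀ j, ContDiffOn ℝ ∞ (G j) T := fun j => (hAu j).sub (hFj j)
  have hconj : ContDiffOn ℝ ∞ (fun y => conj (u y)) T :=
    Complex.conjCLE.contDiff.comp_contDiffOn hu
  set f : Cn n → ℂ := fun y => ((χ y : ℂ) * χ y) * conj (u y) with hf
  have hcc : ContDiffOn ℝ ∞ (fun y => (χ y : ℂ) * χ y) T := (hcs.mul hcs).contDiffOn
  have hfs : ContDiffOn ℝ ∞ f T := hcc.mul hconj
  have hf0 : ∀ x ∉ K, f x = 0 := by
    intro x hx
    simp [hf, image_eq_zero_of_notMem_tsupport hx]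
  -- derivative of f
  have hcdf : ∀ j, ∀ x ∈ T, cd j f x = (χ x : ℂ) * χ x * conj (cdb j u x) +
      conj (u x) * (χ x * cd j (fun x => (χ x : ℂ)) x + χ x * cd j (fun x => (χ x : ℂ)) x) := by
    intro j x hx
    rw [((hWIRT T hT _ _ hcc hconj).2.2.1 j x hx).1, ((hWIRT T hT _ _ hu hu).2.2.2.1 j x hx).1,
      ((hWIRT T hT _ _ hcs.contDiffOn hcs.contDiffOn).2.2.1 j x hx).1]
  -- the vector field
  have hYs : ∀ j, ContDiff ℝ ∞ fun x => f x * G j x := fun j =>
    smooth_ext hT (isClosed_tsupport χ) hKT (hfs.mul (hGs j)) fun x hx => by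
      rw [hf0 x hx, zero_mul]
  have hYc : ∀ j, HasCompactSupport fun x => f x * G j x := fun j =>
    HasCompactSupport.intro hKc fun x hx => by rw [hf0 x hx, zero_mul]
  have hY0 : ∫ x, ∑ j, cd j (fun x => f x * G j x) x = 0 := by
    rw [integral_finsetSum _ fun j _ => (integral_cd (hYs j) (hYc j) j).1]
    exact Finset.sum_eq_zero fun j _ => (integral_cd (hYs j) (hYc j) j).2
  have hcd0 : ∀ x ∉ K, ∀ j, cd j (fun x => f x * G j x) x = 0 := by
    intro x hx j
    have h1 : (fun x => f x * G j x) =ᶠ[𝓝 x] fun _ => 0 := by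
      filter_upwards [(isClosed_tsupport χ).isOpen_compl.mem_nhds hx] with y hy
      rw [hf0 y hy, zero_mul]
    unfold cd
    rw [h1.fderiv_eq]
    simp
  have hdiv : ∀ x ∈ K, ∑ j, cd j (G j) x = F₀ x := by
    intro x hx
    have h1 : ∀ j, cd j (G j) x = cd j (fun y => ∑ k, A y k j * cdb k u y) x -
        cd j (fun y => F y j) x := fun j =>
      cd_sub ((hAu j).contDiffAt (hT.mem_nhds (hKT hx)) |>.differentiableAt (by simp))
        ((hFj j).contDiffAt (hT.mem_nhds (hKT hx)) |>.differentiableAt (by simp)) j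
    rw [Finset.sum_congr rfl fun j _ => h1 j, Finset.sum_sub_distrib, heq x hx,
      add_sub_cancel_right]
  set q : Cn n → ℂ := fun x => ∑ j, ((∑ k, A x k j * cdb k u x) - F x j) *
    ((χ x : ℂ) * χ x * conj (cdb j u x) +
      conj (u x) * (χ x * cd j (fun x => (χ x : ℂ)) x + χ x * cd j (fun x => (χ x : ℂ)) x)) with hq
  have hqK : ∀ x ∈ K, ∑ j, cd j (fun x => f x * G j x) x = f x * F₀ x + q x := by
    intro x hx
    have h1 : ∀ j, cd j (fun x => f x * G j x) x = f x * cd j (G j) x + G j x * cd j f x :=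
      fun j => ((hWIRT T hT _ _ hfs (hGs j)).2.2.1 j x (hKT hx)).1
    rw [Finset.sum_congr rfl fun j _ => h1 j, Finset.sum_add_distrib, ← Finset.mul_sum,
      hdiv x hx]
    congr 1
    exact Finset.sum_congr rfl fun j _ => by rw [hcdf j x (hKT hx)]
  have hKm : MeasurableSet K := (isClosed_tsupport χ).measurableSet
  have hq00 : ∫ x in K, (f x * F₀ x + q x) = 0 := by
    rw [← hY0, ← setIntegral_congr_fun hKm hqK]
    exact setIntegral_eq_integral_of_forall_compl_eq_zero fun x hx =>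
      Finset.sum_eq_zero fun j _ => hcd0 x hx j
  have hfF : ContinuousOn (fun x => f x * F₀ x) K :=
    (hfs.continuousOn.mono hKT).mul (hF₀.continuousOn.mono hKT)
  have hfFI : IntegrableOn (fun x => f x * F₀ x) K := hfF.integrableOn_compact hKc
  have hqc : ContinuousOn q K := by
    refine continuousOn_finsetSum _ fun j _ => ?_
    have hχc : ContinuousOn (fun x => (χ x : ℂ)) K := hcs.continuous.continuousOn
    have hdc : ContinuousOn (cd j fun x => (χ x : ℂ)) K := (hcd j).continuousOn.mono hKT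
    have huc : ContinuousOn (fun x => conj (u x)) K := hconj.continuousOn.mono hKT
    have hbc : ContinuousOn (fun x => conj (cdb j u x)) K :=
      Complex.continuous_conj.comp_continuousOn ((hcdb j).continuousOn.mono hKT)
    exact (((hAu j).sub (hFj j)).continuousOn.mono hKT).mul (((hχc.mul hχc).mul hbc).add
      (huc.mul ((hχc.mul hdc).add (hχc.mul hdc))))
  have hqI : IntegrableOn q K := hqc.integrableOn_compact hKc
  have hF₀c2 : ContinuousOn (fun x => ‖F₀ x‖ ^ 2) K := (hF₀.continuousOn.mono hKT).norm.pow 2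
  have hF₀I := hF₀c2.integrableOn_compact (μ := volume) hKc
  have huc2' : ContinuousOn (fun x => ‖u x‖ ^ 2) K := (hu.continuousOn.mono hKT).norm.pow 2
  have huI' := huc2'.integrableOn_compact (μ := volume) hKc
  have hqre : ∫ x in K, (q x).re ≤ M ^ 2 * ((∫ x in K, ‖u x‖ ^ 2) + ∫ x in K, ‖F₀ x‖ ^ 2) := by
    have e1 := integral_re hqI
    simp only [RCLike.re_to_complex] at e1
    have e2 : ∫ x in K, q x = - ∫ x in K, f x * F₀ x := by
      rw [integral_add hfFI hqI] at hq00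
      exact (neg_eq_of_add_eq_zero_right hq00).symm
    rw [e1, e2, Complex.neg_re]
    have e3 : -(∫ x in K, f x * F₀ x).re ≤ ‖∫ x in K, f x * F₀ x‖ :=
      (neg_le_abs _).trans (Complex.abs_re_le_norm _)
    refine e3.trans ?_
    rw [← integral_add huI' hF₀I, ← integral_const_mul]
    refine norm_integral_le_of_norm_le ((huI'.add hF₀I).const_mul _) ?_
    filter_upwards [ae_restrict_mem hKm] with x hx
    have e4 : ‖f x * F₀ x‖ = |χ x| ^ 2 * (‖u x‖ * ‖F₀ x‖) := by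
      simp only [hf]
      rw [norm_mul, norm_mul, norm_mul, RCLike.norm_conj, Complex.norm_real, Real.norm_eq_abs]
      ring
    rw [e4]
    have e5 : |χ x| ^ 2 ≤ M ^ 2 := pow_le_pow_left₀ (abs_nonneg _) (hMs x hx) 2
    have e6 : ‖u x‖ * ‖F₀ x‖ ≤ ‖u x‖ ^ 2 + ‖F₀ x‖ ^ 2 := by
      nlinarith [sq_nonneg (‖u x‖ - ‖F₀ x‖), sq_nonneg (‖u x‖ + ‖F₀ x‖)]
    exact mul_le_mul e5 e6 (by positivity) (sq_nonneg _)
  have hgc : ContinuousOn (fun x => χ x ^ 2 * ∑ k, ‖cdb k u x‖ ^ 2) K := by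
    refine (hχ.1.continuous.continuousOn.pow 2).mul (continuousOn_finsetSum _ fun k _ => ?_)
    exact ((hcdb k).continuousOn.mono hKT).norm.pow 2
  have huc2 : ContinuousOn (fun x => ‖u x‖ ^ 2) K := (hu.continuousOn.mono hKT).norm.pow 2
  have hFc2 : ContinuousOn (fun x => ∑ j, ‖F x j‖ ^ 2) K :=
    continuousOn_finsetSum _ fun j _ => ((hFj j).continuousOn.mono hKT).norm.pow 2
  have hgI := hgc.integrableOn_compact (μ := volume) hKc
  have huI := huc2.integrableOn_compact (μ := volume) hKc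
  have hFI := hFc2.integrableOn_compact (μ := volume) hKc
  have hmain : ∫ x in K, (lam / 2 * (χ x ^ 2 * ∑ k, ‖cdb k u x‖ ^ 2) -
      (B1 * ‖u x‖ ^ 2 + B2 * ∑ j, ‖F x j‖ ^ 2)) ≤ ∫ x in K, (q x).re := by
    refine setIntegral_mono_on ?_ ?_ hKm ?_
    · exact (hgI.const_mul _).sub ((huI.const_mul _).add (hFI.const_mul _))
    · exact hqI.re
    · intro x hx
      exact pointwise hlam hM0 (A x) (hMA x hx) (fun j => cd j (fun x => (χ x : ℂ)) x) (hMd x hx)
        (χ x) (hMs x hx) (u x) (fun k => cdb k u x) (F x) (hlow x hx _)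
  rw [integral_sub (f := fun x => lam / 2 * (χ x ^ 2 * ∑ k, ‖cdb k u x‖ ^ 2))
    (g := fun x => B1 * ‖u x‖ ^ 2 + B2 * ∑ j, ‖F x j‖ ^ 2)
    (hgI.const_mul _) ((huI.const_mul _).add (hFI.const_mul _)),
    integral_add (f := fun x => B1 * ‖u x‖ ^ 2) (g := fun x => B2 * ∑ j, ‖F x j‖ ^ 2)
    (huI.const_mul _) (hFI.const_mul _), integral_const_mul, integral_const_mul,
    integral_const_mul] at hmain
  have hTK : ∫ x in T, χ x ^ 2 * ∑ k, ‖cdb k u x‖ ^ 2 =
      ∫ x in K, χ x ^ 2 * ∑ k, ‖cdb k u x‖ ^ 2 := by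
    refine setIntegral_eq_of_subset_of_forall_sdiff_eq_zero hT.measurableSet hKT ?_
    intro x hx
    rw [image_eq_zero_of_notMem_tsupport hx.2]
    ring
  rw [hTK]
  set I1 := ∫ x in K, χ x ^ 2 * ∑ k, ‖cdb k u x‖ ^ 2 with hI1
  set I2 := ∫ x in K, ‖u x‖ ^ 2 with hI2
  set I3 := ∫ x in K, ∑ j, ‖F x j‖ ^ 2 with hI3
  set I4 := ∫ x in K, ‖F₀ x‖ ^ 2 with hI4
  have hI2' : 0 ≤ I2 := integral_nonneg fun x => by positivity
  have hI3' : 0 ≤ I3 := integral_nonneg fun x => by positivity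
  have hI4' : 0 ≤ I4 := integral_nonneg fun x => by positivity
  have hM2 : 0 ≤ M ^ 2 := sq_nonneg M
  have h9 : lam / 2 * I1 ≤ (B1 + B2 + M ^ 2) * (I2 + I4 + I3) := by
    have h10 := mul_nonneg hB1' hI3'
    have h11 := mul_nonneg hB2' hI2'
    have h12 := mul_nonneg hB1' hI4'
    have h13 := mul_nonneg hB2' hI4'
    have h14 := mul_nonneg hM2 hI3'
    linarith
  calc I1 = 2 / lam * (lam / 2 * I1) := by field_simp
    _ ≤ 2 / lam * ((B1 + B2 + M ^ 2) * (I2 + I4 + I3)) :=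
      mul_le_mul_of_nonneg_left h9 (by positivity)
    _ = 2 / lam * (B1 + B2 + M ^ 2) * (I2 + I4 + I3) := by ring

end Pool.Agent.Helper94.CACF
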