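import Pool.Agent.Helper57.HS.GoalsG

/-! # Packet HALG: Hölder algebra of matrix fields -/

open Complex Metric Set Filter Topology MeasureTheory
open scoped ContDiff ComplexConjugate ComplexOrder Manifold Matrix

namespace Pool.Agent.Helper94.HALG

open Pool.Agent.Helper95.Lin Pool.Agent.Helper16.Abund Pool.Agent.Helper10.SP
  Pool.Agent.Helper57.HS

universe u v

section scalar

variable {n : ℕ} {a : ℝ} {S : Set (Cn n)}

theorem rp (x y : Cn n) (a : ℝ) : 0 ≤ ‖x - y‖ ^ a := Real.rpow_nonneg (norm_nonneg _) a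

theorem cb_add {f g : Cn n → ℂ} {K L : ℝ} (hf : CB a S K f) (hg : CB a S L g) :
    CB a S (K + L) (fun x => f x + g x) := by
  refine ⟨fun x hx => (norm_add_le _ _).trans (add_le_add (hf.1 x hx) (hg.1 x hx)),
    fun x hx y hy => ?_⟩
  have e : f x + g x - (f y + g y) = (f x - f y) + (g x - g y) := by ring
  simp only [e]
  refine (norm_add_le _ _).trans ?_
  rw [add_mul]
  exact add_le_add (hf.2 x hx y hy) (hg.2 x hx y hy)

theorem cb_mul {f g : Cn n → ℂ} {K L : ℝ} (hf : CB a S K f) (hg : CB a S L g) :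
    CB a S (2 * K * L) (fun x => f x * g x) := by
  have hK : ∀ x ∈ S, 0 ≤ K := fun x hx => (norm_nonneg _).trans (hf.1 x hx)
  have hL : ∀ x ∈ S, 0 ≤ L := fun x hx => (norm_nonneg _).trans (hg.1 x hx)
  refine ⟨fun x hx => ?_, fun x hx y hy => ?_⟩
  · rw [norm_mul]
    have h1 : ‖f x‖ * ‖g x‖ ≤ K * L := mul_le_mul (hf.1 x hx) (hg.1 x hx) (norm_nonneg _) (hK x hx)
    have h2 : 0 ≤ K * L := mul_nonneg (hK x hx) (hL x hx)
    linarith
  · have e : f x * g x - f y * g y = (f x - f y) * g x + f y * (g x - g y) := by ring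
    simp only [e]
    refine (norm_add_le _ _).trans ?_
    rw [norm_mul, norm_mul]
    have h1 : ‖f x - f y‖ * ‖g x‖ ≤ (K * ‖x - y‖ ^ a) * L :=
      mul_le_mul (hf.2 x hx y hy) (hg.1 x hx) (norm_nonneg _)
        (mul_nonneg (hK x hx) (rp x y a))
    have h2 : ‖f y‖ * ‖g x - g y‖ ≤ K * (L * ‖x - y‖ ^ a) :=
      mul_le_mul (hf.1 y hy) (hg.2 x hx y hy) (norm_nonneg _) (hK x hx)
    linarith

theorem cb_sum {ι : Type*} (s : Finset ι) {f : ι → Cn n → ℂ} {K : ℝ}
    (h : ∀ i ∈ s, CB a S K (f i)) : CB a S (s.card * K) (fun x => ∑ i ∈ s, f i x) := by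
  refine ⟨fun x hx => ?_, fun x hx y hy => ?_⟩
  · refine (norm_sum_le _ _).trans ?_
    refine (Finset.sum_le_sum fun i hi => (h i hi).1 x hx).trans ?_
    rw [Finset.sum_const, nsmul_eq_mul]
  · change ‖∑ i ∈ s, f i x - ∑ i ∈ s, f i y‖ ≤ _
    rw [← Finset.sum_sub_distrib]
    refine (norm_sum_le _ _).trans ?_
    refine (Finset.sum_le_sum fun i hi => (h i hi).2 x hx y hy).trans ?_
    rw [Finset.sum_const, nsmul_eq_mul, mul_assoc]

end scalar

/-! ## Positive matrices -/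

theorem smul_real {n : ℕ} {A : Matrix (Fin n) (Fin n) ℂ} (hA : A.PosSemidef) {c : ℝ}
    (hc : 0 ≤ c) : ((c : ℂ) • A).PosSemidef := by
  have h := hA.smul hc
  have e : (c : ℂ) • A = c • A := by
    ext i j
    simp [Matrix.smul_apply]
  rw [e]
  exact h

theorem smul_real' {n : ℕ} {A : Matrix (Fin n) (Fin n) ℂ} (hA : A.PosDef) {c : ℝ}
    (hc : 0 < c) : ((c : ℂ) • A).PosDef := by
  have h := hA.smul hc
  have e : (c : ℂ) • A = c • A := by
    ext i j
    simp [Matrix.smul_apply]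
  rw [e]
  exact h

theorem posDef_of {n : ℕ} {A : Matrix (Fin n) (Fin n) ℂ} {lam : ℝ} (h0 : 0 < lam)
    (h : MLe ((lam : ℂ) • 1) A) : A.PosDef := by
  have h1 : (A - (lam : ℂ) • 1).PosSemidef := h
  have h2 := (smul_real' (Matrix.PosDef.one (n := Fin n) (R := ℂ)) h0).add_posSemidef h1
  rwa [add_sub_cancel] at h2

theorem entry_le {n : ℕ} {A : Matrix (Fin n) (Fin n) ℂ} (hA : A.PosSemidef) {c : ℝ}
    (hc : 0 ≤ c) (h : MLe A ((c : ℂ) • 1)) (i j : Fin n) : ‖A i j‖ ≤ c := by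
  have hd : ∀ i, 0 ≤ (A i i).re ∧ (A i i).re ≤ c ∧ (A i i).im = 0 := by
    intro i
    have h1 : 0 ≤ A i i := hA.diag_nonneg
    have h2 : 0 ≤ ((c : ℂ) • (1 : Matrix (Fin n) (Fin n) ℂ) - A) i i :=
      Matrix.PosSemidef.diag_nonneg h
    rw [Matrix.sub_apply, Matrix.smul_apply, Matrix.one_apply_eq, smul_eq_mul, mul_one] at h2
    rw [Complex.nonneg_iff] at h1 h2
    rw [Complex.sub_re, Complex.ofReal_re] at h2
    exact ⟨h1.1, by linarith [h2.1], h1.2.symm⟩
  have h3 := (hA.submatrix ![i, j]).det_nonneg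
  rw [Matrix.det_fin_two] at h3
  simp only [Matrix.submatrix_apply, Matrix.cons_val_zero, Matrix.cons_val_one] at h3
  have h4 : A j i = conj (A i j) := (hA.isHermitian.apply j i).symm
  have h5 : A i j * A j i = ((‖A i j‖ ^ 2 : ℝ) : ℂ) := by
    rw [h4, Complex.mul_conj, Complex.normSq_eq_norm_sq]
  rw [h5] at h3
  rw [Complex.nonneg_iff] at h3
  have h6 := h3.1
  rw [Complex.sub_re, Complex.mul_re, (hd i).2.2, zero_mul, sub_zero, Complex.ofReal_re] at h6
  have h7 : (A i i).re * (A j j).re ≤ c * c :=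
    mul_le_mul (hd i).2.1 (hd j).2.1 (hd j).1 hc
  have h8 : ‖A i j‖ ^ 2 ≤ c ^ 2 := by
    rw [sq c]
    linarith
  exact le_of_sq_le_sq h8 hc

theorem inv_le {n : ℕ} {A : Matrix (Fin n) (Fin n) ℂ} {lam : ℝ} (h0 : 0 < lam)
    (h : MLe ((lam : ℂ) • 1) A) : MLe A⁻¹ (((lam⁻¹ : ℝ) : ℂ) • 1) := by
  have hA := posDef_of h0 h
  have hu : IsUnit A.det := isUnit_iff_ne_zero.2 hA.det_pos.ne'
  have hi : A⁻¹.IsHermitian := hA.inv.isHermitian
  set P := A - (lam : ℂ) • (1 : Matrix (Fin n) (Fin n) ℂ) with hP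
  have hPp : P.PosSemidef := h
  have hPP : (P * P).PosSemidef := by
    have := Matrix.posSemidef_conjTranspose_mul_self P
    rwa [hPp.isHermitian.eq] at this
  have h1 : (A⁻¹ * (P * P + (lam : ℂ) • P) * A⁻¹).PosSemidef := by
    have := (hPP.add (smul_real hPp h0.le)).conjTranspose_mul_mul_same A⁻¹
    rwa [hi.eq] at this
  have h2 := smul_real h1 (inv_nonneg.2 h0.le)
  have e1 : P * P + (lam : ℂ) • P = P * A := by
    have : A = P + (lam : ℂ) • (1 : Matrix (Fin n) (Fin n) ℂ) := by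
      rw [hP]
      abel
    conv_rhs => rw [this]
    rw [Matrix.mul_add, Matrix.mul_smul, Matrix.mul_one]
  have e2 : A⁻¹ * (P * P + (lam : ℂ) • P) * A⁻¹ =
      (1 : Matrix (Fin n) (Fin n) ℂ) - (lam : ℂ) • A⁻¹ := by
    rw [e1, ← Matrix.mul_assoc, Matrix.mul_assoc (A⁻¹ * P), Matrix.mul_nonsing_inv _ hu,
      Matrix.mul_one, hP, Matrix.mul_sub, Matrix.nonsing_inv_mul _ hu, Matrix.mul_smul,
      Matrix.mul_one]
  have e3 : ((lam⁻¹ : ℝ) : ℂ) • ((1 : Matrix (Fin n) (Fin n) ℂ) - (lam : ℂ) • A⁻¹) =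
      ((lam⁻¹ : ℝ) : ℂ) • 1 - A⁻¹ := by
    rw [smul_sub, smul_smul, ← Complex.ofReal_mul, inv_mul_cancel₀ h0.ne', Complex.ofReal_one,
      one_smul]
  rw [e2, e3] at h2
  exact h2

theorem le_inv {n : ℕ} {A : Matrix (Fin n) (Fin n) ℂ} (hA : A.PosDef) {lam : ℝ} (h0 : 0 < lam)
    (h : MLe A (((lam⁻¹ : ℝ) : ℂ) • 1)) : MLe ((lam : ℂ) • 1) A⁻¹ := by
  have hu : IsUnit A.det := isUnit_iff_ne_zero.2 hA.det_pos.ne'
  have hi : A⁻¹.IsHermitian := hA.inv.isHermitian
  set D := A⁻¹ - (lam : ℂ) • (1 : Matrix (Fin n) (Fin n) ℂ) with hD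
  have hDh : Dᴴ = D := by
    rw [hD, Matrix.conjTranspose_sub, hi.eq, Matrix.conjTranspose_smul,
      Matrix.conjTranspose_one]
    simp
  have h1 : (D * A * D).PosSemidef := by
    have := hA.posSemidef.conjTranspose_mul_mul_same D
    rwa [hDh] at this
  have h3 : (((lam⁻¹ : ℝ) : ℂ) • (1 : Matrix (Fin n) (Fin n) ℂ) - A).PosSemidef := h
  have h4 := h1.add (smul_real h3 (sq_nonneg lam))
  have e : D * A * D + ((lam ^ 2 : ℝ) : ℂ) •
      (((lam⁻¹ : ℝ) : ℂ) • (1 : Matrix (Fin n) (Fin n) ℂ) - A) = D := by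
    have e1 : D * A = 1 - (lam : ℂ) • A := by
      rw [hD, Matrix.sub_mul, Matrix.nonsing_inv_mul _ hu, Matrix.smul_mul, Matrix.one_mul]
    have e2 : D * A * D = D - (lam : ℂ) • ((1 : Matrix (Fin n) (Fin n) ℂ) - (lam : ℂ) • A) := by
      rw [e1, Matrix.sub_mul, Matrix.one_mul, Matrix.smul_mul]
      congr 2
      rw [hD, Matrix.mul_sub, Matrix.mul_nonsing_inv _ hu, Matrix.mul_smul, Matrix.mul_one]
    rw [e2, smul_sub, smul_sub, smul_smul, smul_smul]
    have e3 : ((lam ^ 2 : ℝ) : ℂ) * ((lam⁻¹ : ℝ) : ℂ) = (lam : ℂ) := by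
      rw [← Complex.ofReal_mul]
      congr 1
      field_simp
    have e4 : ((lam ^ 2 : ℝ) : ℂ) = (lam : ℂ) * (lam : ℂ) := by
      push_cast
      ring
    rw [e3, e4]
    abel
  rw [e] at h4
  exact h4

/-- The packet HALG. -/
theorem halg : S_HALG := by
  intro n a S ha
  have key : ∀ (A : Cn n → Matrix (Fin n) (Fin n) ℂ) (lam : ℝ), 0 < lam → Ell lam S A →
      (∀ x ∈ S, (A x).PosDef ∧ ∀ i j, ‖A x i j‖ ≤ lam⁻¹) := fun A lam h0 h x hx =>
    ⟨posDef_of h0 (h x hx).1, entry_le (posDef_of h0 (h x hx).1).posSemidef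
      (inv_nonneg.2 h0.le) (h x hx).2⟩
  have key2 : ∀ (A : Cn n → Matrix (Fin n) (Fin n) ℂ) (lam : ℝ), 0 < lam → Ell lam S A →
      Ell lam S (fun x => (A x)⁻¹) := fun A lam h0 h x hx =>
    ⟨le_inv (posDef_of h0 (h x hx).1) h0 (h x hx).2, inv_le h0 (h x hx).1⟩
  refine ⟨fun f g K L hf hg => ⟨cb_add hf hg, cb_mul hf hg⟩, ?_, ?_⟩
  · intro A B K L hK hL hA hB
    have h1 : ∀ i j, CB a S (2 * n * K * L) fun x => (A x * B x) i j := by
      intro i j
      have h := cb_sum (a := a) (S := S) (Finset.univ : Finset (Fin n))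
        (f := fun k x => A x i k * B x k j) (K := 2 * K * L) fun k _ => cb_mul (hA i k) (hB k j)
      rw [Finset.card_univ, Fintype.card_fin] at h
      have e : 2 * n * K * L = n * (2 * K * L) := by ring
      rw [e]
      exact h
    refine ⟨h1, ?_⟩
    have h := cb_sum (a := a) (S := S) (Finset.univ : Finset (Fin n))
      (f := fun i x => (A x * B x) i i) (K := 2 * n * K * L) fun i _ => h1 i i
    rw [Finset.card_univ, Fintype.card_fin] at h
    have e : 2 * (n : ℝ) ^ 2 * K * L = n * (2 * n * K * L) := by ring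
    rw [e]
    exact h
  · intro A lam A₀ h0 hA₀ hE
    refine ⟨key A lam h0 hE, key2 A lam h0 hE, fun hb i j => ?_⟩
    have hi := key _ lam h0 (key2 A lam h0 hE)
    have hl : 0 < lam⁻¹ := inv_pos.2 h0
    refine ⟨fun x hx => ((hi x hx).2 i j).trans ?_, fun x hx y hy => ?_⟩
    · have : 0 ≤ (n : ℝ) ^ 2 * A₀ * lam⁻¹ ^ 2 := by positivity
      linarith
    · have ux : IsUnit (A x).det := isUnit_iff_ne_zero.2 (posDef_of h0 (hE x hx).1).det_pos.ne'
      have uy : IsUnit (A y).det := isUnit_iff_ne_zero.2 (posDef_of h0 (hE y hy).1).det_pos.ne'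
      have e : (A x)⁻¹ - (A y)⁻¹ = (A x)⁻¹ * ((A y - A x) * (A y)⁻¹) := by
        rw [Matrix.sub_mul, Matrix.mul_nonsing_inv _ uy, Matrix.mul_sub, Matrix.mul_one,
          ← Matrix.mul_assoc, Matrix.nonsing_inv_mul _ ux, Matrix.one_mul]
      have e' : (A x)⁻¹ i j - (A y)⁻¹ i j =
          ∑ k, (A x)⁻¹ i k * ∑ l, (A y k l - A x k l) * (A y)⁻¹ l j := by
        rw [← Matrix.sub_apply, e, Matrix.mul_apply]
        rfl
      change ‖(A x)⁻¹ i j - (A y)⁻¹ i j‖ ≤ _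
      rw [e']
      set d := ‖x - y‖ ^ a with hd
      have hd0 : 0 ≤ d := rp x y a
      have h1 : ∀ k ∈ (Finset.univ : Finset (Fin n)),
          ‖(A x)⁻¹ i k * ∑ l, (A y k l - A x k l) * (A y)⁻¹ l j‖ ≤
            lam⁻¹ * (n * (A₀ * d * lam⁻¹)) := by
        intro k _
        rw [norm_mul]
        refine mul_le_mul ((hi x hx).2 i k) ?_ (norm_nonneg _) hl.le
        refine (norm_sum_le _ _).trans ?_
        have h2 : ∀ l ∈ (Finset.univ : Finset (Fin n)),
            ‖(A y k l - A x k l) * (A y)⁻¹ l j‖ ≤ A₀ * d * lam⁻¹ := by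
          intro l _
          rw [norm_mul]
          refine mul_le_mul ?_ ((hi y hy).2 l j) (norm_nonneg _) (by positivity)
          rw [norm_sub_rev]
          exact hb k l x hx y hy
        refine (Finset.sum_le_sum h2).trans (le_of_eq ?_)
        rw [Finset.sum_const, Finset.card_univ, Fintype.card_fin, nsmul_eq_mul]
      refine (norm_sum_le _ _).trans ((Finset.sum_le_sum h1).trans ?_)
      rw [Finset.sum_const, Finset.card_univ, Fintype.card_fin, nsmul_eq_mul]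
      have : 0 ≤ lam⁻¹ * d := by positivity
      nlinarith

end Pool.Agent.Helper94.HALG
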