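import Pool.Agent.Helper15.HS.GoalsC
import Pool.Agent.Helper67.Lin.MOLW

/-! # Packet MLB: bounds for mollifications -/

open Complex Metric Set Filter Topology MeasureTheory
open scoped ContDiff ComplexConjugate ComplexOrder Manifold Matrix Convolution

namespace Pool.Agent.Helper94.HS

open Pool.Agent.Helper95.Lin Pool.Agent.Helper16.Abund Pool.Agent.Helper10.SP
  Pool.Agent.Helper57.HS Pool.Agent.Helper15.HS
open Pool.Agent.Helper67.Lin (mol_contDiff mol_cs norm_lt_of_mol mol_cont mol_int bump_int
  bump_nonneg)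

universe u v

variable {n : ℕ}

theorem mol_nn {ε : ℝ} (hε : 0 < ε) (y : Cn n) : 0 ≤ mol n ε y :=
  mul_nonneg (inv_nonneg.2 (bump_int hε).le) (bump_nonneg ε y)

theorem mollc_conv (F : Cn n → ℂ) (ε : ℝ) :
    Helper15.HS.mollc F ε = ((fun y => (mol n ε y : ℂ)) ⋆[ContinuousLinearMap.mul ℝ ℂ, volume] F) := by
  funext x
  change _ = ∫ t, (mol n ε t : ℂ) * F (x - t)
  unfold Helper15.HS.mollc
  refine integral_congr_ae (Eventually.of_forall fun y => ?_)
  simp only []
  ring

theorem molC_cont (ε : ℝ) : Continuous (fun y : Cn n => (mol n ε y : ℂ)) :=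
  Complex.continuous_ofReal.comp (mol_cont ε)

theorem molC_cs {ε : ℝ} (hε : 0 < ε) : HasCompactSupport (fun y : Cn n => (mol n ε y : ℂ)) :=
  (mol_cs hε).comp_left (g := fun t : ℝ => (t : ℂ)) (by simp)

theorem molC_li {ε : ℝ} (_hε : 0 < ε) : LocallyIntegrable (fun y : Cn n => (mol n ε y : ℂ)) :=
  (molC_cont ε).locallyIntegrable

theorem mollc_contDiff {F : Cn n → ℂ} (hF : ContDiff ℝ ∞ F) (hc : HasCompactSupport F) {ε : ℝ}
    (hε : 0 < ε) : ContDiff ℝ ∞ (Helper15.HS.mollc F ε) := by
  rw [mollc_conv]
  exact hc.contDiff_convolution_right (ContinuousLinearMap.mul ℝ ℂ) (molC_li hε) hF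

theorem fderiv_mollc {F : Cn n → ℂ} (hF : ContDiff ℝ ∞ F) (hc : HasCompactSupport F) {ε : ℝ}
    (hε : 0 < ε) (x v : Cn n) :
    fderiv ℝ (Helper15.HS.mollc F ε) x v = ∫ y, (mol n ε y : ℂ) * fderiv ℝ F (x - y) v := by
  rw [mollc_conv]
  have h1 := hc.hasFDerivAt_convolution_right (ContinuousLinearMap.mul ℝ ℂ) (μ := volume)
    (molC_li hε) (hF.of_le (by simp)) x
  rw [h1.fderiv]
  exact convolution_precompR_apply (ContinuousLinearMap.mul ℝ ℂ) (molC_li hε) (hc.fderiv ℝ)
    (hF.continuous_fderiv (by simp)) x v

theorem int_mol_mul {ε : ℝ} (hε : 0 < ε) {g : Cn n → ℂ} (hg : Continuous g) (x : Cn n) :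
    Integrable fun y => (mol n ε y : ℂ) * g (x - y) := by
  have h1 : Continuous fun y => (mol n ε y : ℂ) * g (x - y) :=
    (molC_cont ε).mul (hg.comp (continuous_const.sub continuous_id))
  exact h1.integrable_of_hasCompactSupport ((molC_cs hε).mul_right)

theorem cdb_mollc {F : Cn n → ℂ} (hF : ContDiff ℝ ∞ F) (hc : HasCompactSupport F) {ε : ℝ}
    (hε : 0 < ε) (x : Cn n) (l : Fin n) :
    cdb l (Helper15.HS.mollc F ε) x = ∫ y, (mol n ε y : ℂ) * cdb l F (x - y) := by
  have hg : ∀ v : Cn n, Continuous fun y => fderiv ℝ F y v := fun v =>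
    (hF.continuous_fderiv (by simp)).clm_apply continuous_const
  unfold cdb
  rw [fderiv_mollc hF hc hε, fderiv_mollc hF hc hε, ← integral_const_mul, ← integral_add
    (int_mol_mul hε (hg _) x) ((int_mol_mul hε (hg _) x).const_mul I)]
  refine integral_congr_ae (Eventually.of_forall fun y => ?_)
  simp only []
  ring

/-- The smooth cut off of `f`. -/
theorem exists_cut {a : Cn n} {ρ : ℝ} (hρ : 0 < ρ) {f : Cn n → ℂ}
    (hf : ContDiffOn ℝ ∞ f (ball a (2 * ρ))) : ∃ F : Cn n → ℂ, ContDiff ℝ ∞ F ∧
    HasCompactSupport F ∧ ∀ x ∈ closedBall a ρ, F x = f x := by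
  let η : ContDiffBump a := ⟨ρ, (3 / 2) * ρ, hρ, by linarith⟩
  have hη : ContDiff ℝ ∞ (η : Cn n → ℝ) := η.contDiff
  refine ⟨fun x => (η x : ℂ) * f x, ?_, ?_, fun x hx => ?_⟩
  · rw [contDiff_iff_contDiffAt]
    intro x
    by_cases hx : x ∈ ball a (2 * ρ)
    · exact ((Complex.ofRealCLM.contDiff.comp hη).contDiffAt).mul
        (hf.contDiffAt (isOpen_ball.mem_nhds hx))
    · have hx' : x ∈ (closedBall a ((3 / 2) * ρ))ᶜ := by
        intro h
        exact hx (closedBall_subset_ball (by linarith) h)
      have h0 : (fun x => (η x : ℂ) * f x) =ᶠ[𝓝 x] fun _ => 0 := by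
        filter_upwards [isClosed_closedBall.isOpen_compl.mem_nhds hx'] with y hy
        have : η y = 0 := by
          by_contra h
          have h2 : y ∈ Function.support (η : Cn n → ℝ) := h
          rw [η.support_eq] at h2
          exact hy (ball_subset_closedBall h2)
        rw [this]
        simp
      exact contDiffAt_const.congr_of_eventuallyEq h0
  · exact (η.hasCompactSupport.comp_left (g := fun t : ℝ => (t : ℂ)) (by simp)).mul_right
  · have : η x = 1 := η.one_of_mem_closedBall hx
    simp only [this]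
    simp

/-- Change of variables. -/
theorem int_sub_eq (g : Cn n → Cn n → ℝ) (x : Cn n) :
    ∫ y, g y (x - y) = ∫ z, g (x - z) z := by
  have := integral_sub_left_eq_self (fun z => g (x - z) z) volume x
  rw [← this]
  refine integral_congr_ae (Eventually.of_forall fun y => ?_)
  simp

/-- The packet MLB. -/
theorem mlb : S_MLB := by
  intro n r ε hr hε
  -- the constants
  obtain ⟨M, hM⟩ : ∃ M : ℝ, ∀ y : Cn n, mol n ε y ≤ M := by
    obtain ⟨C, hC⟩ := (mol_cont (n := n) ε).bounded_above_of_compact_support (mol_cs hε)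
    exact ⟨C, fun y => (le_abs_self _).trans (hC y)⟩
  obtain ⟨L, hL⟩ : ∃ L : NNReal, LipschitzWith L (mol n ε : Cn n → ℝ) := by
    have h1 : ContDiff ℝ 1 (mol n ε : Cn n → ℝ) := (mol_contDiff ε).of_le (by simp)
    exact h1.lipschitzWith_of_hasCompactSupport (mol_cs hε) (by simp)
  have hM0 : 0 ≤ M := (mol_nn hε 0).trans (hM 0)
  set V : ℝ := (volume : Measure (Cn n)).real (closedBall (0 : Cn n) (r + ε)) with hV
  have hV0 : 0 ≤ V := measureReal_nonneg
  refine ⟨L * V + M, fun a f s hf hs => ?_⟩
  have hρ : 0 < r + ε := by linarith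
  have hs0 : 0 ≤ s := (norm_nonneg _).trans (hs a (mem_closedBall_self hρ.le))
  obtain ⟨F, hF, hFc, hFf⟩ := exists_cut hρ hf
  have hin : ∀ x ∈ closedBall a r, ∀ y : Cn n, mol n ε y ≠ 0 → x - y ∈ closedBall a (r + ε) := by
    intro x hx y hy
    have h1 := norm_lt_of_mol hε hy
    rw [mem_closedBall_iff_norm] at hx ⊢
    have : x - y - a = (x - a) - y := by abel
    rw [this]
    exact (norm_sub_le _ _).trans (by linarith)
  have hloc : ∀ x ∈ closedBall a r, Helper15.HS.mollc f ε x = Helper15.HS.mollc F ε x := by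
    intro x hx
    unfold Helper15.HS.mollc
    refine integral_congr_ae (Eventually.of_forall fun y => ?_)
    simp only []
    by_cases hy : mol n ε y = 0
    · rw [hy]; simp
    · rw [hFf _ (hin x hx y hy)]
  have hloc' : ∀ x ∈ ball a r, Helper15.HS.mollc f ε =ᶠ[𝓝 x] Helper15.HS.mollc F ε := by
    intro x hx
    filter_upwards [isOpen_ball.mem_nhds hx] with y hy
    exact hloc y (ball_subset_closedBall hy)
  -- the formula with the integral over `z`
  have hform : ∀ x ∈ closedBall a r, Helper15.HS.mollc f ε x =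
      ∫ z in closedBall a (r + ε), f z * (mol n ε (x - z) : ℂ) := by
    intro x hx
    unfold Helper15.HS.mollc
    have h1 := integral_sub_left_eq_self (fun z => f z * (mol n ε (x - z) : ℂ)) volume x
    have h2 : ∫ y, f (x - y) * (mol n ε y : ℂ) = ∫ z, f z * (mol n ε (x - z) : ℂ) := by
      rw [← h1]
      refine integral_congr_ae (Eventually.of_forall fun y => ?_)
      simp
    rw [h2, setIntegral_eq_integral_of_forall_compl_eq_zero]
    intro z hz
    have : mol n ε (x - z) = 0 := by
      by_contra h
      apply hz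
      have := hin x hx _ h
      rwa [sub_sub_cancel] at this
    rw [this]
    simp
  have hfc : ContinuousOn f (closedBall a (r + ε)) :=
    hf.continuousOn.mono (closedBall_subset_ball (by linarith))
  have hint : ∀ x : Cn n, IntegrableOn (fun z => f z * (mol n ε (x - z) : ℂ))
      (closedBall a (r + ε)) := by
    intro x
    refine ContinuousOn.integrableOn_compact (isCompact_closedBall _ _) ?_
    exact hfc.mul ((molC_cont ε).comp (continuous_const.sub continuous_id)).continuousOn
  refine ⟨fun x hx => ?_, fun x hx y hy => ?_, ?_, fun x hx l => ?_⟩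
  · -- the bound
    unfold Helper15.HS.mollc
    have h1 : ∫ y, s * mol n ε y = s := by
      rw [integral_const_mul, mol_int hε, mul_one]
    rw [← h1]
    refine norm_integral_le_of_norm_le
      (((mol_cont ε).integrable_of_hasCompactSupport (mol_cs hε)).const_mul _)
      (Eventually.of_forall fun y => ?_)
    by_cases hy : mol n ε y = 0
    · rw [hy]; simp
    · rw [norm_mul, Complex.norm_real, Real.norm_of_nonneg (mol_nn hε y)]
      exact mul_le_mul_of_nonneg_right (hs _ (hin x hx y hy)) (mol_nn hε y)
  · -- the Lipschitz bound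
    rw [hform x hx, hform y hy, ← integral_sub (hint x) (hint y)]
    have h1 : ∀ z ∈ closedBall a (r + ε), ‖f z * (mol n ε (x - z) : ℂ) -
        f z * (mol n ε (y - z) : ℂ)‖ ≤ s * (L * ‖x - y‖) := by
      intro z hz
      rw [← mul_sub, norm_mul, ← Complex.ofReal_sub, Complex.norm_real]
      refine mul_le_mul (hs z hz) ?_ (norm_nonneg _) hs0
      have := hL.dist_le_mul (x - z) (y - z)
      rw [dist_eq_norm, dist_eq_norm, sub_sub_sub_cancel_right] at this
      exact this
    refine (norm_setIntegral_le_of_norm_le_const (measure_closedBall_lt_top) h1).trans ?_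
    have h2 : (volume : Measure (Cn n)).real (closedBall a (r + ε)) = V := by
      rw [hV, Measure.real, Measure.real, Measure.addHaar_closedBall_center]
    rw [h2]
    have : 0 ≤ M * s * ‖x - y‖ := by positivity
    nlinarith [norm_nonneg (x - y)]
  · -- smoothness
    exact (mollc_contDiff hF hFc hε).contDiffOn.congr
      fun x hx => hloc x (ball_subset_closedBall hx)
  · -- the bound of the derivative
    have h0 : cdb l (Helper15.HS.mollc f ε) x = cdb l (Helper15.HS.mollc F ε) x := by
      unfold cdb
      rw [(hloc' x hx).fderiv_eq]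
    rw [h0, cdb_mollc hF hFc hε]
    have hcF : Continuous (cdb l F) := by
      have hg : ∀ v : Cn n, Continuous fun y => fderiv ℝ F y v := fun v =>
        (hF.continuous_fderiv (by simp)).clm_apply continuous_const
      unfold cdb
      exact (hg _).add (continuous_const.mul (hg _))
    have hFf' : ∀ z ∈ ball a (r + ε), cdb l F z = cdb l f z := by
      intro z hz
      have h1 : F =ᶠ[𝓝 z] f := by
        filter_upwards [isOpen_ball.mem_nhds hz] with w hw
        exact hFf w (ball_subset_closedBall hw)
      unfold cdb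
      rw [h1.fderiv_eq]
    have hcf : IntegrableOn (fun z => ‖cdb l f z‖) (closedBall a (r + ε)) := by
      refine ContinuousOn.integrableOn_compact (isCompact_closedBall _ _) ?_
      have h1 : ContinuousOn (fderiv ℝ f) (ball a (2 * (r + ε))) :=
        hf.continuousOn_fderiv_of_isOpen isOpen_ball (by simp)
      have hg : ∀ v : Cn n, ContinuousOn (fun y => fderiv ℝ f y v) (closedBall a (r + ε)) :=
        fun v => (h1.mono (closedBall_subset_ball (by linarith))).clm_apply continuousOn_const
      unfold cdb
      exact ((hg _).add (continuousOn_const.mul (hg _))).norm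
    have hI0 : 0 ≤ ∫ y in closedBall a (r + ε), ‖cdb l f y‖ :=
      integral_nonneg fun _ => norm_nonneg _
    refine (norm_integral_le_integral_norm _).trans ?_
    have h2 : ∫ y, ‖(mol n ε y : ℂ) * cdb l F (x - y)‖ =
        ∫ z, mol n ε (x - z) * ‖cdb l F z‖ := by
      rw [← int_sub_eq (fun y z => mol n ε y * ‖cdb l F z‖) x]
      refine integral_congr_ae (Eventually.of_forall fun y => ?_)
      simp only []
      rw [norm_mul, Complex.norm_real, Real.norm_of_nonneg (mol_nn hε y)]
    rw [h2]
    have hxb := ball_subset_closedBall hx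
    have h3 : ∫ z, mol n ε (x - z) * ‖cdb l F z‖ =
        ∫ z in closedBall a (r + ε), mol n ε (x - z) * ‖cdb l f z‖ := by
      rw [← integral_indicator measurableSet_closedBall]
      refine integral_congr_ae (Eventually.of_forall fun z => ?_)
      simp only []
      by_cases hz : mol n ε (x - z) = 0
      · rw [hz, zero_mul]
        by_cases hz' : z ∈ closedBall a (r + ε)
        · rw [indicator_of_mem hz', hz, zero_mul]
        · rw [indicator_of_notMem hz']
      · have h5 : z ∈ ball a (r + ε) := by
          have h6 := norm_lt_of_mol hε hz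
          rw [mem_ball_iff_norm] at hx ⊢
          have : z - a = (x - a) - (x - z) := by abel
          rw [this]
          exact (norm_sub_le _ _).trans_lt (by linarith)
        rw [indicator_of_mem (ball_subset_closedBall h5), hFf' z h5]
    rw [h3]
    have h4 : ∫ z in closedBall a (r + ε), mol n ε (x - z) * ‖cdb l f z‖ ≤
        ∫ z in closedBall a (r + ε), M * ‖cdb l f z‖ := by
      refine setIntegral_mono_on ?_ (hcf.const_mul M) measurableSet_closedBall fun z _ =>
        mul_le_mul_of_nonneg_right (hM _) (norm_nonneg _)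
      exact hcf.continuousOn_mul ((mol_cont ε).comp
        (continuous_const.sub continuous_id)).continuousOn (isCompact_closedBall _ _)
    rw [integral_const_mul] at h4
    have : 0 ≤ L * V * ∫ y in closedBall a (r + ε), ‖cdb l f y‖ := by positivity
    linarith

end Pool.Agent.Helper94.HS
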