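import Pool.Agent.Helper57.HS.GoalsG

/-! # Packet QEST: the quadratic term -/

open Complex Metric Set Filter Topology MeasureTheory
open scoped ContDiff ComplexConjugate ComplexOrder Manifold Matrix

namespace Pool.Agent.Helper94.HS

open Pool.Agent.Helper95.Lin Pool.Agent.Helper16.Abund Pool.Agent.Helper10.SP
  Pool.Agent.Helper57.HS

universe u v

/-! ## Small Hermitian matrices -/

theorem smul_one_herm {n : ℕ} (c : ℝ) :
    ((c : ℂ) • (1 : Matrix (Fin n) (Fin n) ℂ)).IsHermitian := by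
  rw [Matrix.IsHermitian, Matrix.conjTranspose_smul, Matrix.conjTranspose_one]
  simp

theorem psd_small {n : ℕ} {W : Matrix (Fin n) (Fin n) ℂ} (hW : W.IsHermitian) {r c : ℝ}
    (hr : 0 ≤ r) (hb : ∀ i j, ‖W i j‖ ≤ r) (hc : n * r ≤ c) :
    ((c : ℂ) • (1 : Matrix (Fin n) (Fin n) ℂ) + W).PosSemidef := by
  have hH : ((c : ℂ) • (1 : Matrix (Fin n) (Fin n) ℂ) + W).IsHermitian := (smul_one_herm c).add hW
  refine Matrix.PosSemidef.of_dotProduct_mulVec_nonneg hH fun x => ?_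
  rw [Complex.nonneg_iff]
  refine ⟨?_, (hH.im_star_dotProduct_mulVec_self x).symm⟩
  have e1 : star x ⬝ᵥ (((c : ℂ) • (1 : Matrix (Fin n) (Fin n) ℂ) + W) *ᵥ x) =
      ((c * ∑ i, ‖x i‖ ^ 2 : ℝ) : ℂ) + star x ⬝ᵥ (W *ᵥ x) := by
    rw [Matrix.add_mulVec, dotProduct_add, Matrix.smul_mulVec, Matrix.one_mulVec]
    congr 1
    rw [dotProduct_smul, smul_eq_mul]
    push_cast
    congr 1
    rw [dotProduct]
    refine Finset.sum_congr rfl fun i _ => ?_
    rw [Pi.star_apply, ← Complex.ofReal_pow, ← Complex.normSq_eq_norm_sq,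
      Complex.normSq_eq_conj_mul_self]
    rfl
  have e2 : ‖star x ⬝ᵥ (W *ᵥ x)‖ ≤ r * (∑ i, ‖x i‖) ^ 2 := by
    rw [dotProduct]
    refine (norm_sum_le _ _).trans ?_
    have h1 : ∀ i ∈ (Finset.univ : Finset (Fin n)), ‖star x i * (W *ᵥ x) i‖ ≤
        ‖x i‖ * (r * ∑ j, ‖x j‖) := by
      intro i _
      rw [norm_mul, Pi.star_apply, norm_star]
      refine mul_le_mul_of_nonneg_left ?_ (norm_nonneg _)
      rw [Matrix.mulVec, dotProduct, Finset.mul_sum]
      refine (norm_sum_le _ _).trans (Finset.sum_le_sum fun j _ => ?_)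
      rw [norm_mul]
      exact mul_le_mul_of_nonneg_right (hb i j) (norm_nonneg _)
    refine (Finset.sum_le_sum h1).trans (le_of_eq ?_)
    rw [← Finset.sum_mul]
    ring
  have e3 : (∑ i, ‖x i‖) ^ 2 ≤ n * ∑ i, ‖x i‖ ^ 2 := by
    have := sq_sum_le_card_mul_sum_sq (s := (Finset.univ : Finset (Fin n))) (f := fun i => ‖x i‖)
    simpa using this
  have e4 : -(r * (∑ i, ‖x i‖) ^ 2) ≤ (star x ⬝ᵥ (W *ᵥ x)).re := by
    have := (Complex.abs_re_le_norm (star x ⬝ᵥ (W *ᵥ x))).trans e2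
    exact (abs_le.1 this).1
  rw [e1, Complex.add_re, Complex.ofReal_re]
  have e5 : 0 ≤ ∑ i, ‖x i‖ ^ 2 := Finset.sum_nonneg fun i _ => sq_nonneg _
  have e6 : r * (∑ i, ‖x i‖) ^ 2 ≤ c * ∑ i, ‖x i‖ ^ 2 := by
    calc r * (∑ i, ‖x i‖) ^ 2 ≤ r * (n * ∑ i, ‖x i‖ ^ 2) := mul_le_mul_of_nonneg_left e3 hr
      _ = (n * r) * ∑ i, ‖x i‖ ^ 2 := by ring
      _ ≤ c * ∑ i, ‖x i‖ ^ 2 := mul_le_mul_of_nonneg_right hc e5
  linarith

/-- Perturbation of the ellipticity. -/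
theorem ell_add {n : ℕ} {lam r : ℝ} (h0 : 0 < lam) (h1 : lam ≤ 1) (hr : 0 ≤ r)
    (hr' : n * r ≤ lam / 2) {S : Set (Cn n)} {Q W : Cn n → Matrix (Fin n) (Fin n) ℂ}
    (hQ : Ell lam S Q) (hW : ∀ x ∈ S, (W x).IsHermitian) (hb : ∀ x ∈ S, ∀ i j, ‖W x i j‖ ≤ r) :
    Ell (lam / 2) S (fun x => Q x + W x) := by
  intro x hx
  obtain ⟨hl, hu⟩ := hQ x hx
  refine ⟨?_, ?_⟩
  · have a1 := Matrix.PosSemidef.add hl (psd_small (hW x hx) hr (hb x hx) hr')
    have e : Q x + W x - (((lam / 2 : ℝ) : ℂ) • (1 : Matrix (Fin n) (Fin n) ℂ)) =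
        Q x - (lam : ℂ) • (1 : Matrix (Fin n) (Fin n) ℂ) +
          (((lam / 2 : ℝ) : ℂ) • (1 : Matrix (Fin n) (Fin n) ℂ) + W x) := by
      ext i j
      simp only [Matrix.sub_apply, Matrix.add_apply, Matrix.smul_apply, smul_eq_mul]
      push_cast
      ring
    unfold MLe
    rw [e]
    exact a1
  · have h2 : n * r ≤ (lam / 2)⁻¹ - lam⁻¹ := by
      have e : (lam / 2)⁻¹ - lam⁻¹ = lam⁻¹ := by
        field_simp
        ring
      rw [e]
      have : 1 ≤ lam⁻¹ := (one_le_inv₀ h0).2 h1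
      linarith
    have hn : (- W x).IsHermitian := (hW x hx).neg
    have a1 := Matrix.PosSemidef.add hu (psd_small hn hr
      (fun i j => by rw [Matrix.neg_apply, norm_neg]; exact hb x hx i j) h2)
    have e : (((lam / 2)⁻¹ : ℝ) : ℂ) • (1 : Matrix (Fin n) (Fin n) ℂ) - (Q x + W x) =
        ((lam⁻¹ : ℝ) : ℂ) • (1 : Matrix (Fin n) (Fin n) ℂ) - Q x +
          ((((lam / 2)⁻¹ - lam⁻¹ : ℝ) : ℂ) • (1 : Matrix (Fin n) (Fin n) ℂ) + - W x) := by
      ext i j
      simp only [Matrix.sub_apply, Matrix.add_apply, Matrix.smul_apply, Matrix.neg_apply,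
        smul_eq_mul]
      push_cast
      ring
    unfold MLe
    rw [e]
    exact a1

/-! ## The derivative of the logarithm of the determinant -/

theorem hasDerivAt_det_line {n : ℕ} (A B : Matrix (Fin n) (Fin n) ℂ) (z₀ : ℂ)
    (h : (A + z₀ • B).det ≠ 0) : HasDerivAt (fun z : ℂ => (A + z • B).det)
      ((A + z₀ • B).det * Matrix.trace ((A + z₀ • B)⁻¹ * B)) z₀ := by
  set C := A + z₀ • B with hC
  set M := C⁻¹ * B with hM
  have hu : IsUnit C.det := isUnit_iff_ne_zero.2 h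
  have hCM : C * M = B := by rw [hM, ← Matrix.mul_assoc, Matrix.mul_nonsing_inv _ hu, Matrix.one_mul]
  set q := (Matrix.det (1 + (Polynomial.X : Polynomial ℂ) • M.map Polynomial.C)).divX.divX with hq
  have key : (fun z : ℂ => (A + z • B).det) = fun z => C.det *
      (1 + Matrix.trace M * (z - z₀) + q.eval (z - z₀) * (z - z₀) ^ 2) := by
    funext z
    have e1 : A + z • B = C * (1 + (z - z₀) • M) := by
      rw [Matrix.mul_add, Matrix.mul_one, Matrix.mul_smul, hCM, hC, sub_smul]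
      abel
    rw [e1, Matrix.det_mul, Matrix.det_one_add_smul]
  rw [key]
  have h1 : HasDerivAt (fun z : ℂ => z - z₀) 1 z₀ := (hasDerivAt_id z₀).sub_const z₀
  have h2 : HasDerivAt (fun z : ℂ => q.eval (z - z₀)) (q.derivative.eval (z₀ - z₀) * 1) z₀ :=
    HasDerivAt.comp (h := fun z : ℂ => z - z₀) (h₂ := fun w : ℂ => q.eval w) z₀
      (q.hasDerivAt (z₀ - z₀)) h1
  have h3 := (((hasDerivAt_const z₀ (1 : ℂ)).add (h1.const_mul (Matrix.trace M))).add
    (h2.mul (h1.pow 2))).const_mul C.det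
  refine h3.congr_deriv ?_
  simp

theorem herm_det_im {n : ℕ} {C : Matrix (Fin n) (Fin n) ℂ} (h : C.IsHermitian) :
    C.det.im = 0 := by
  have h1 : star C.det = C.det := by
    rw [← Matrix.det_conjTranspose, h.eq]
  exact Complex.conj_eq_iff_im.1 h1

theorem hasDerivAt_logdet {n : ℕ} (A B : Matrix (Fin n) (Fin n) ℂ) (s₀ : ℝ)
    (h : (A + (s₀ : ℂ) • B).PosDef) : HasDerivAt (fun s : ℝ => Real.log (A + (s : ℂ) • B).det.re)
      (Matrix.trace ((A + (s₀ : ℂ) • B)⁻¹ * B)).re s₀ := by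
  have hp : 0 < (A + (s₀ : ℂ) • B).det := h.det_pos
  have hre : 0 < (A + (s₀ : ℂ) • B).det.re := (Complex.pos_iff.1 hp).1
  have him : (A + (s₀ : ℂ) • B).det.im = 0 := herm_det_im h.isHermitian
  have h1 := (hasDerivAt_det_line A B (s₀ : ℂ) hp.ne').real_of_complex
  have h2 := h1.log hre.ne'
  refine h2.congr_deriv ?_
  rw [Complex.mul_re, him, zero_mul, sub_zero, mul_div_cancel_left₀ _ hre.ne']

/-! ## Hölder bounds -/

theorem CB_mono {n : ℕ} {E : Type*} [NormedAddCommGroup E] {a K K' : ℝ} {S : Set (Cn n)}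
    {f : Cn n → E} (h : CB a S K f) (hK : K ≤ K') : CB a S K' f :=
  ⟨fun x hx => (h.1 x hx).trans hK, fun x hx y hy => (h.2 x hx y hy).trans
    (mul_le_mul_of_nonneg_right hK (Real.rpow_nonneg (norm_nonneg _) a))⟩

theorem CB_conv {n : ℕ} {a r s : ℝ} {S : Set (Cn n)} {f g : Cn n → ℂ} (hf : CB a S r f)
    (hg : CB a S r g) (hs : s ∈ Icc (0 : ℝ) 1) :
    CB a S r (fun x => g x + (s : ℂ) * (f x - g x)) := by
  have hn : ∀ u v : ℂ, ∀ m : ℝ, ‖u‖ ≤ m → ‖v‖ ≤ m → ‖v + (s : ℂ) * (u - v)‖ ≤ m := by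
    intro u v m hu hv
    have e : v + (s : ℂ) * (u - v) = ((1 - s : ℝ) : ℂ) * v + ((s : ℝ) : ℂ) * u := by
      push_cast
      ring
    rw [e]
    refine (norm_add_le _ _).trans ?_
    rw [norm_mul, norm_mul, Complex.norm_real, Complex.norm_real,
      Real.norm_of_nonneg (by linarith [hs.2]), Real.norm_of_nonneg hs.1]
    have h1 : (1 - s) * ‖v‖ ≤ (1 - s) * m := mul_le_mul_of_nonneg_left hv (by linarith [hs.2])
    have h2 : s * ‖u‖ ≤ s * m := mul_le_mul_of_nonneg_left hu hs.1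
    linarith
  refine ⟨fun x hx => hn _ _ _ (hf.1 x hx) (hg.1 x hx), fun x hx y hy => ?_⟩
  have e : g x + (s : ℂ) * (f x - g x) - (g y + (s : ℂ) * (f y - g y)) =
      (g x - g y) + (s : ℂ) * ((f x - f y) - (g x - g y)) := by ring
  rw [e]
  exact hn _ _ _ (hf.2 x hx y hy) (hg.2 x hx y hy)

/-- The packet QEST. -/
theorem qest (hH : S_HALG) : S_QEST := by
  intro n a lam A₀ ha h0 h1 hA
  set r₀ : ℝ := lam / (2 * n + 2) with hr₀
  have hr₀p : 0 < r₀ := by rw [hr₀]; positivity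
  have hnr₀ : n * r₀ ≤ lam / 2 := by
    rw [hr₀, mul_div_assoc', div_le_div_iff₀ (by positivity) (by norm_num)]
    nlinarith
  set K₀ : ℝ := lam⁻¹ + n ^ 2 * A₀ * lam⁻¹ ^ 2 with hK₀
  set K₁ : ℝ := (lam / 2)⁻¹ + n ^ 2 * (A₀ + r₀) * (lam / 2)⁻¹ ^ 2 with hK₁
  have hK₀p : 0 < K₀ := by rw [hK₀]; positivity
  have hK₁p : 0 < K₁ := by rw [hK₁]; positivity
  refine ⟨r₀, hr₀p, 8 * (n : ℝ) ^ 4 * K₁ * K₀ + 1, by positivity, ?_⟩
  intro S Q V V' r t hQ hQb hVh hr hrr ht hVb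
  have hnr : n * r ≤ lam / 2 := (mul_le_mul_of_nonneg_left hrr (Nat.cast_nonneg n)).trans hnr₀
  -- the path
  set Vs : ℝ → Cn n → Matrix (Fin n) (Fin n) ℂ := fun s x => V' x + (s : ℂ) • (V x - V' x)
    with hVs
  have hVsh : ∀ s : ℝ, ∀ x ∈ S, (Vs s x).IsHermitian := by
    intro s x hx
    obtain ⟨e1, e2⟩ := hVh x hx
    have e3 : ((s : ℂ) • (V x - V' x)).IsHermitian := by
      rw [Matrix.IsHermitian, Matrix.conjTranspose_smul, (e1.sub e2).eq]
      simp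
    exact e2.add e3
  have hVsb : ∀ s ∈ Icc (0 : ℝ) 1, ∀ i j, CB a S r fun x => Vs s x i j := by
    intro s hs i j
    have := CB_conv (hVb i j).1 (hVb i j).2.1 hs
    exact this
  have hell : ∀ s ∈ Icc (0 : ℝ) 1, Ell (lam / 2) S fun x => Q x + Vs s x := fun s hs =>
    ell_add h0 h1 hr hnr hQ (hVsh s) fun x hx i j => (hVsb s hs i j).1 x hx
  have hV1 : ∀ x, Vs 1 x = V x := by
    intro x
    simp only [hVs, Complex.ofReal_one, one_smul]
    abel
  have hV0 : ∀ x, Vs 0 x = V' x := by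
    intro x
    simp only [hVs, Complex.ofReal_zero, zero_smul, add_zero]
  have hpd : ∀ s ∈ Icc (0 : ℝ) 1, ∀ x ∈ S, (Q x + Vs s x).PosDef := fun s hs x hx =>
    (((hH n a S ha).2.2 _ (lam / 2) 0 (by linarith) le_rfl (hell s hs)).1 x hx).1
  have hQpd : ∀ x ∈ S, (Q x).PosDef := fun x hx =>
    (((hH n a S ha).2.2 _ lam 0 h0 le_rfl hQ).1 x hx).1
  -- the trace
  set Tr : ℝ → Cn n → ℂ := fun s x =>
    Matrix.trace ((((Q x + Vs s x)⁻¹ * Vs s x) * (Q x)⁻¹) * (V x - V' x)) with hTr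
  have hTrb : ∀ s ∈ Icc (0 : ℝ) 1, CB a S ((8 * (n : ℝ) ^ 4 * K₁ * K₀ + 1) * r * t) (Tr s) := by
    intro s hs
    have b1 : ∀ i j, CB a S K₁ fun x => (Q x + Vs s x)⁻¹ i j := by
      refine ((hH n a S ha).2.2 _ (lam / 2) (A₀ + r₀) (by linarith) (by linarith)
        (hell s hs)).2.2 fun i j x hx y hy => ?_
      have e : (Q x + Vs s x) i j - (Q y + Vs s y) i j =
          (Q x i j - Q y i j) + (Vs s x i j - Vs s y i j) := by
        simp only [Matrix.add_apply]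
        ring
      simp only [e]
      have c1 := (hQb i j).2 x hx y hy
      have c2 := (hVsb s hs i j).2 x hx y hy
      have c3 : r * ‖x - y‖ ^ a ≤ r₀ * ‖x - y‖ ^ a :=
        mul_le_mul_of_nonneg_right hrr (Real.rpow_nonneg (norm_nonneg _) a)
      refine (norm_add_le _ _).trans ?_
      rw [add_mul]
      exact add_le_add c1 (c2.trans c3)
    have b2 : ∀ i j, CB a S K₀ fun x => (Q x)⁻¹ i j :=
      ((hH n a S ha).2.2 _ lam A₀ h0 hA hQ).2.2 fun i j => (hQb i j).2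
    have b3 := ((hH n a S ha).2.1 (fun x => (Q x + Vs s x)⁻¹) (Vs s) K₁ r hK₁p.le hr b1
      (hVsb s hs)).1
    have b4 := ((hH n a S ha).2.1 (fun x => (Q x + Vs s x)⁻¹ * Vs s x) (fun x => (Q x)⁻¹)
      (2 * n * K₁ * r) K₀ (by positivity) hK₀p.le b3 b2).1
    have b5 := ((hH n a S ha).2.1 (fun x => (Q x + Vs s x)⁻¹ * Vs s x * (Q x)⁻¹)
      (fun x => V x - V' x) (2 * n * (2 * n * K₁ * r) * K₀) t (by positivity) ht b4
      (fun i j => (hVb i j).2.2)).2
    refine CB_mono b5 ?_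
    have : 0 ≤ r * t := mul_nonneg hr ht
    nlinarith
  -- the functions of `s`
  set g : Cn n → ℝ → ℝ := fun x s => Real.log (Q x + Vs s x).det.re -
    s * (Matrix.trace ((Q x)⁻¹ * (V x - V' x))).re with hg
  have hgd : ∀ x ∈ S, ∀ s ∈ Icc (0 : ℝ) 1, HasDerivAt (g x) (-(Tr s x).re) s := by
    intro x hx s hs
    have e0 : ∀ s : ℝ, Q x + Vs s x = (Q x + V' x) + (s : ℂ) • (V x - V' x) := by
      intro s
      simp only [hVs]
      abel
    have hp := hpd s hs x hx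
    have hp' := hp
    rw [e0 s] at hp'
    have d1 := hasDerivAt_logdet (Q x + V' x) (V x - V' x) s hp'
    have d2 := d1.sub ((hasDerivAt_id s).mul_const
      (Matrix.trace ((Q x)⁻¹ * (V x - V' x))).re)
    have e1 : (g x) = ((fun s : ℝ => Real.log ((Q x + V' x) + (s : ℂ) • (V x - V' x)).det.re) -
        fun s : ℝ => id s * (Matrix.trace ((Q x)⁻¹ * (V x - V' x))).re) := by
      funext s
      simp only [hg, Pi.sub_apply, e0 s, id]
    rw [e1]
    refine d2.congr_deriv ?_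
    rw [one_mul, ← e0 s]
    have u1 : IsUnit (Q x + Vs s x).det := isUnit_iff_ne_zero.2 hp.det_pos.ne'
    have u2 : IsUnit (Q x).det := isUnit_iff_ne_zero.2 (hQpd x hx).det_pos.ne'
    have e2 : (Q x + Vs s x)⁻¹ - (Q x)⁻¹ = -((Q x + Vs s x)⁻¹ * Vs s x * (Q x)⁻¹) := by
      have e3 : (Q x + Vs s x)⁻¹ * Vs s x * (Q x)⁻¹ =
          (Q x + Vs s x)⁻¹ * (Q x + Vs s x) * (Q x)⁻¹ -
            (Q x + Vs s x)⁻¹ * (Q x * (Q x)⁻¹) := by
        rw [← Matrix.mul_assoc, ← Matrix.sub_mul, ← Matrix.mul_sub]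
        congr 2
        abel
      rw [e3, Matrix.nonsing_inv_mul _ u1, Matrix.mul_nonsing_inv _ u2, Matrix.one_mul,
        Matrix.mul_one]
      abel
    have e4 : Matrix.trace ((Q x + Vs s x)⁻¹ * (V x - V' x)) -
        Matrix.trace ((Q x)⁻¹ * (V x - V' x)) = - Tr s x := by
      rw [← Matrix.trace_sub, ← Matrix.sub_mul, e2, Matrix.neg_mul, Matrix.trace_neg]
    rw [← Complex.sub_re, e4, Complex.neg_re]
  have hg1 : ∀ x, g x 1 - g x 0 = qq Q V x - qq Q V' x := by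
    intro x
    simp only [hg, hV1, hV0, qq]
    rw [Matrix.mul_sub, Matrix.trace_sub, Complex.sub_re]
    ring
  refine ⟨?_, ?_, ?_⟩
  · have := hell 1 ⟨zero_le_one, le_rfl⟩
    simp only [hV1] at this
    exact this
  · intro x hx
    change ‖qq Q V x - qq Q V' x‖ ≤ _
    rw [← hg1 x]
    refine norm_image_sub_le_of_norm_deriv_le_segment_01' (f' := fun s => -(Tr s x).re)
      (fun s hs => (hgd x hx s hs).hasDerivWithinAt) fun s hs => ?_
    rw [norm_neg, Real.norm_eq_abs]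
    exact (Complex.abs_re_le_norm _).trans ((hTrb s (Ico_subset_Icc_self hs)).1 x hx)
  · intro x hx y hy
    change ‖qq Q V x - qq Q V' x - (qq Q V y - qq Q V' y)‖ ≤ _
    have e : qq Q V x - qq Q V' x - (qq Q V y - qq Q V' y) =
        (g x - g y) 1 - (g x - g y) 0 := by
      rw [← hg1 x, ← hg1 y, Pi.sub_apply, Pi.sub_apply]
      ring
    rw [e]
    refine norm_image_sub_le_of_norm_deriv_le_segment_01'
      (f' := fun s => -(Tr s x).re - -(Tr s y).re)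
      (fun s hs => ((hgd x hx s hs).sub (hgd y hy s hs)).hasDerivWithinAt) fun s hs => ?_
    have e5 : -(Tr s x).re - -(Tr s y).re = -(Tr s x - Tr s y).re := by
      rw [Complex.sub_re]
      ring
    rw [e5, norm_neg, Real.norm_eq_abs]
    exact (Complex.abs_re_le_norm _).trans ((hTrb s (Ico_subset_Icc_self hs)).2 x hx y hy)

end Pool.Agent.Helper94.HS
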